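import Mathlib
import Pool.Agent.Helper11_PGL.StmtG

/-!
# CERT: a coprimality relation specialises
-/

open PGH
open scoped TensorProduct

universe u

namespace H76PGL

open PGL

section

variable {k V M R : Type*} [Field k] [Field V] [Field M] [Field R] [Algebra k V] [Algebra k M]
  [Algebra V M] [IsScalarTower k V M] [Algebra k R]

/-- an element of `V ⊗ R` lifts to `S ⊗ R` for every subalgebra `S` of `M` containing a finite
set -/
theorem exists_lift (t : V ⊗[k] R) : ∃ T : Set M, T.Finite ∧ ∀ S : Subalgebra k M, T ⊆ (S : Set M) →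
    ∃ t' : S ⊗[k] R, Algebra.TensorProduct.map S.val (AlgHom.id k R) t' =
      Algebra.TensorProduct.map (IsScalarTower.toAlgHom k V M) (AlgHom.id k R) t := by
  induction t using TensorProduct.induction_on with
  | zero => exact ⟨∅, Set.finite_empty, fun S _ => ⟨0, by rw [map_zero, map_zero]⟩⟩
  | tmul a r =>
    refine ⟨{algebraMap V M a}, Set.finite_singleton _, fun S hS => ?_⟩
    refine ⟨(⟨algebraMap V M a, hS rfl⟩ : S) ⊗ₜ[k] r, ?_⟩
    rw [Algebra.TensorProduct.map_tmul, Algebra.TensorProduct.map_tmul]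
    rfl
  | add a b iha ihb =>
    obtain ⟨T₁, hT₁, h₁⟩ := iha
    obtain ⟨T₂, hT₂, h₂⟩ := ihb
    refine ⟨T₁ ∪ T₂, hT₁.union hT₂, fun S hS => ?_⟩
    obtain ⟨a', ha'⟩ := h₁ S (fun x hx => hS (Or.inl hx))
    obtain ⟨b', hb'⟩ := h₂ S (fun x hx => hS (Or.inr hx))
    exact ⟨a' + b', by rw [map_add, map_add, ha', hb']⟩

theorem map_val_injective (S : Subalgebra k M) : Function.Injective
    (Algebra.TensorProduct.map S.val (AlgHom.id k R) : S ⊗[k] R →ₐ[k] M ⊗[k] R) := by
  have h := Module.Flat.rTensor_preserves_injective_linearMap (M := R)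
    (S.val.toLinearMap) (by exact Subtype.val_injective)
  exact h

theorem map_yT {A B : Type*} [CommRing A] [CommRing B] [Algebra k A] [Algebra k B]
    (φ : A →ₐ[k] B) {n : ℕ} (y : Fin n → A) (f : Fin n → R) :
    Algebra.TensorProduct.map φ (AlgHom.id k R) (yT k y f) = yT k (fun j => φ (y j)) f := by
  unfold yT
  rw [map_sum]
  exact Finset.sum_congr rfl fun j _ => by rw [Algebra.TensorProduct.map_tmul]; rfl

end

theorem cert : CertStmt.{u} := by
  intro k V M R _ _ _ _ _ _ _ _ _ n f g y hc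
  obtain ⟨a, b, hab⟩ := hc
  obtain ⟨T₁, hT₁, h₁⟩ := exists_lift (M := M) a
  obtain ⟨T₂, hT₂, h₂⟩ := exists_lift (M := M) b
  refine ⟨T₁ ∪ T₂ ∪ Set.range (fun j => algebraMap V M (y j)), (hT₁.union hT₂).union
    (Set.finite_range _), ?_⟩
  intro S hS E _ _ φ
  obtain ⟨a', ha'⟩ := h₁ S (fun x hx => hS (Or.inl (Or.inl hx)))
  obtain ⟨b', hb'⟩ := h₂ S (fun x hx => hS (Or.inl (Or.inr hx)))
  have hyS : ∀ j, algebraMap V M (y j) ∈ S := fun j => hS (Or.inr ⟨j, rfl⟩)
  set y' : Fin (n + 1) → S := fun j => ⟨algebraMap V M (y j), hyS j⟩ with hy'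
  have hrel : a' * yT k y' f + b' * yT k y' g = 1 := by
    apply map_val_injective S
    rw [map_add, map_mul, map_mul, ha', hb', map_yT, map_yT, map_one]
    have h := congrArg (Algebra.TensorProduct.map (IsScalarTower.toAlgHom k V M)
      (AlgHom.id k R)) hab
    rw [map_add, map_mul, map_mul, map_yT, map_yT, map_one] at h
    exact h
  have hev : ∀ j, ev φ (algebraMap V M (y j)) = φ (y' j) := fun j => ev_mem φ (hyS j)
  refine ⟨Algebra.TensorProduct.map φ (AlgHom.id k R) a',
    Algebra.TensorProduct.map φ (AlgHom.id k R) b', ?_⟩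
  have h := congrArg (Algebra.TensorProduct.map φ (AlgHom.id k R)) hrel
  rw [map_add, map_mul, map_mul, map_yT, map_yT, map_one] at h
  simp only [hev]
  exact h

end H76PGL
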